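import Pool.Agent.X252.GKS

/-!
# Group actions and the sign conjecture, with coefficients

Let a finite group `G` act on a smooth proper variety `X` of dimension `n`, and let `H^*` be a Weil
cohomology theory with coefficients in a field `K`. The sign conjecture for `X` says that the projector
onto the even cohomology is given by a cycle with rational coefficients. For a subgroup `H` of `G`
we consider the operator which is `∑_{h ∈ H} h^*` on the even cohomology and zero on the odd
cohomology (the even projector of the quotient `X/H`), and ask whether it is given by a `K`-linear
combination of classes of cycles. Then

* the sign conjecture holds for `X`, with rational coefficients, if no irreducible `K`-linear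
  representation of `G` occurs both in the even and in the odd cohomology; in general only the
  representations which occur in both matter;
* for an involution `c` the sign conjecture for `X` is equivalent to the one with coefficients for
  `X/c` and `X/[G,c]`, and if `c` is contained in a nonabelian simple subgroup, to the one for `X/c`;
* if a subgroup is partitioned into subgroups `D_j`, at least two, then the sign conjecture for `X` is
  equivalent to the one with coefficients for all the `X/D_j`;
* if it fails for `X`, but holds with coefficients for all quotients by subgroups of prime order,
  then a fixed point free irreducible `K`-linear representation of `G` occurs in both, the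
  subgroups of `G` of order `p q` and the commutative subgroups are cyclic, and `G` has at most one
  involution.
-/

open CategoryTheory Pool.Agent.H914 Pool.Agent.H447 Pool.Agent.X252.GC Pool.Agent.X252.GKS
  Pool.Agent.X310.Mu

universe u v

namespace Pool.Agent.Results.MP_56c18a_ag.GroupActionsWithCoefficients

/-- **Group actions and the sign conjecture, with coefficients.** -/
theorem result {k : Type u} [Field k] {𝒱 : VarClass k} {ops : CycleOps 𝒱}
    (W : WeilCohomology.{u, v} ops) (X : 𝒱.Obj) {G : Type} [Group G] [Finite G]
    (a : G →* Aut X) :
    (NoCommonEO W a → SignStd W X) ∧
    (∀ (H : Subgroup G) (ι : Type) (D : ι → Subgroup G), DominatedEO W a H D →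
      (∀ j, EvenQuotient W a (D j)) → EvenQuotient W a H) ∧
    (∀ c : G, c * c = 1 → (SignStd W X ↔
      EvenQuotient W a (Subgroup.zpowers c) ∧ EvenQuotient W a (comms c))) ∧
    (∀ c : G, InSimple c → c ≠ 1 → c * c = 1 →
      (SignStd W X ↔ EvenQuotient W a (Subgroup.zpowers c))) ∧
    (∀ (ι : Type) (D : ι → Subgroup G) (S : Subgroup G), Partitions S D →
      (SignStd W X ↔ ∀ j, EvenQuotient W a (D j))) ∧
    (¬ SignStd W X → (∀ P : Subgroup G, (Nat.card P).Prime → EvenQuotient W a P) →
      CommonFreeEO W a ∧ CyclicSubgroups G) :=
  main_sign a

end Pool.Agent.Results.MP_56c18a_ag.GroupActionsWithCoefficients
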