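import Pool.Agent.X279.NK.WeilNum

/-!
# The sign conjecture is one equality of intersection numbers

Let `X` be a smooth proper variety of dimension `n` and `W` a Weil cohomology. A rational cycle `e`
of codimension `n` on `X × X` with `e ∘ e` numerically equivalent to `e` has an intersection number
with the diagonal which is an integer between `- b⁻` and `b⁺`, the sums of the odd and of the even
Betti numbers. The sign conjecture holds for `X` if and only if the upper bound is attained, if and
only if the lower bound is attained.
-/

open Pool.Agent.H914 Pool.Agent.H447 Pool.Agent.X279.NK VarClass Obj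

universe u v

namespace Pool.Agent.Results.MP_56c18a_ag.NumericalProjector

/-- **The sign conjecture and projectors modulo numerical equivalence.** -/
theorem result {k : Type u} [Field k] {𝒱 : VarClass k} {ops : CycleOps 𝒱}
    (W : WeilCohomology.{u, v} ops) (X : 𝒱.Obj) :
    (∀ e, IsNumProjector ops X e → ∃ n : ℤ, diagNumber ops X e = n ∧
      -(oddBetti W X : ℤ) ≤ n ∧ n ≤ evenBetti W X) ∧
    List.TFAE [SignStd W X,
      ∃ e, IsNumProjector ops X e ∧ diagNumber ops X e = evenBetti W X,
      ∃ e, IsNumProjector ops X e ∧ diagNumber ops X e = -(oddBetti W X : ℚ)] := by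
  refine ⟨fun e he => ?_, num_tfae⟩
  obtain ⟨n, h1, h2, h3, -⟩ := num_bounds (W := W) he
  exact ⟨n, h1, h2, h3⟩

end Pool.Agent.Results.MP_56c18a_ag.NumericalProjector
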