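import Pool.Agent.X279.NK.WeilEuler

/-!
# The sign conjecture and one correspondence

Let `X` be a smooth proper variety of dimension `n` and `W` a Weil cohomology, `b⁺` and `b⁻` the sums
of the even and of the odd Betti numbers. The sign conjecture holds for `X` if and only if some
rational cycle (or some `K`-linear combination of cycles) on `X × X` of codimension `n` acts with
coprime characteristic polynomials on the even and on the odd cohomology, if and only if some rational
cycle `u` satisfies the `b⁺ + b⁻` equations `(u ^ k . Δ) = b⁺ - (-1) ^ k b⁻`.
-/

open Pool.Agent.H914 Pool.Agent.H447 Pool.Agent.X279.NK VarClass Obj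

universe u v

namespace Pool.Agent.Results.MP_56c18a_ag.OneCorrespondence

/-- **The sign conjecture and the powers of one correspondence.** -/
theorem result {k : Type u} [Field k] {𝒱 : VarClass k} {ops : CycleOps 𝒱}
    (W : WeilCohomology.{u, v} ops) (X : 𝒱.Obj) :
    List.TFAE [SignStd W X,
      ∃ T ∈ cycOps W X, CoprimeOn (evenH W X) (oddH W X) T,
      CoprimeCombination (evenH W X) (oddH W X) (cycOps W X),
      ∃ u, (X.prod X).IsCyc X.dim u ∧ PowerNumbers W X u] :=
  one_tfae

end Pool.Agent.Results.MP_56c18a_ag.OneCorrespondence
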