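import Pool.Agent.X310.Cen

/-!
# An inequality between intersection numbers, with equality if and only if `C⁺(X)` holds

Let `X` be a smooth projective variety of dimension `n` over a field of any characteristic and `H` a
Weil cohomology theory. Let `w` be a cycle of codimension `n` on `X × X`, with rational
coefficients, such that for all cycles `b` of codimension `n` on `X × X`

`w · ᵗb = Tr(b | H(X))`,

the trace on the total cohomology, without signs (such a cycle exists if and only if these traces
are rational, and zero for numerically trivial `b`; by the Lefschetz trace formula the diagonal
gives the alternating sum of the traces, so that `w` is the sign operator up to numerical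
equivalence). Then

`w · ᵗ(w ∘ w) ≥ ∑_j b_j(X)`,

and equality holds if and only if the sign conjecture `C⁺(X)` holds. Conversely, `C⁺(X)` gives such
a cycle `w` with equality. So the sign conjecture is the existence of a cycle with prescribed
intersection numbers, together with the equality of one intersection number with the sum of the
Betti numbers, which is its smallest possible value.

The proof: the eigenvalues of `w` on `H(X)` (over an algebraic closure) are `(a + b) / (a - b)`,
where `a` and `b` are the multiplicities in even and in odd degrees.
-/

open Pool.Agent.H914 Pool.Agent.H447 Pool.Agent.X310

universe u v

namespace Pool.Agent.Results.MP_56c18a_ag.SignInequality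

/-- **The sign conjecture as the equality case of an inequality between intersection numbers.** -/
theorem result {k : Type u} [Field k] {𝒱 : VarClass k} {ops : CycleOps 𝒱}
    (W : WeilCohomology.{u, v} ops) (X : 𝒱.Obj) :
    (SignStd W X ↔ ∃ w, RepresentsTrace W X w ∧
      interT ops X w (compCyc ops w w) = totalBetti W X) ∧
    ∀ w, RepresentsTrace W X w → totalBetti W X ≤ interT ops X w (compCyc ops w w) ∧
        (interT ops X w (compCyc ops w w) = totalBetti W X ↔ SignStd W X) :=
  sign_main

end Pool.Agent.Results.MP_56c18a_ag.SignInequality
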